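import Pool.Agent.MP_c650be_lc.Defs

-- part MP_c650be_lc.Clubs
section

/-!
Elementary facts on clubs and stationary sets of ordinals.
-/

namespace Pool.Agent.MP_c650be_lc

open Cardinal Ordinal Set

universe u

/-- `β` is a positive accumulation point of `C` from below. -/
def Ac (C : Set Ordinal.{u}) (β : Ordinal.{u}) : Prop :=
  0 < β ∧ ∀ γ < β, ∃ c ∈ C, γ < c ∧ c < β

lemma Ac.mono {C D : Set Ordinal.{u}} {β : Ordinal.{u}} (h : Ac C β)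
    (hCD : ∀ c ∈ C, c < β → c ∈ D) : Ac D β :=
  ⟨h.1, fun γ hγ => let ⟨c, hc, h1, h2⟩ := h.2 γ hγ; ⟨c, hCD c hc h2, h1, h2⟩⟩

lemma Ac.sSup_eq {C : Set Ordinal.{u}} {β : Ordinal.{u}} (h : Ac C β) : β = sSup (C ∩ Iio β) := by
  refine le_antisymm (le_of_forall_lt fun γ hγ => ?_) (csSup_le' fun c hc => le_of_lt hc.2)
  obtain ⟨c, hc, h1, h2⟩ := h.2 γ hγ
  exact h1.trans_le (le_csSup ⟨β, fun c hc => le_of_lt hc.2⟩ ⟨hc, h2⟩)

lemma ClubIn.closed {C : Set Ordinal.{u}} {δ β : Ordinal.{u}} (h : ClubIn C δ) (hβ : β < δ)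
    (hac : Ac C β) : β ∈ C := by
  refine h.2.isLUB_mem (t := {x : Iio δ | x.1 ∈ C ∧ x.1 < β}) (x := ⟨β, hβ⟩) (fun x hx => hx.1)
    ?_ ⟨fun x hx => le_of_lt hx.2, fun y hy => ?_⟩
  · obtain ⟨c, hc, -, h2⟩ := hac.2 0 hac.1
    exact ⟨⟨c, h2.trans hβ⟩, hc, h2⟩
  · by_contra hlt
    obtain ⟨c, hc, h1, h2⟩ := hac.2 y.1 (not_le.1 hlt)
    exact absurd (hy (a := ⟨c, h2.trans hβ⟩) ⟨hc, h2⟩) (not_le.2 h1)

lemma ClubIn.cofinal {C : Set Ordinal.{u}} {δ γ : Ordinal.{u}} (h : ClubIn C δ) (hγ : γ < δ) :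
    ∃ c ∈ C, γ ≤ c := by
  obtain ⟨c, hc, hle⟩ := h.2.isCofinal ⟨γ, hγ⟩
  exact ⟨c.1, hc, hle⟩

lemma clubIn_of {C : Set Ordinal.{u}} {δ : Ordinal.{u}} (h1 : C ⊆ Iio δ)
    (h2 : ∀ β < δ, Ac C β → β ∈ C) (h3 : ∀ γ < δ, ∃ c ∈ C, γ ≤ c) : ClubIn C δ := by
  refine ⟨h1, fun d hd hne _ a ha => ?_, fun a => ?_⟩
  · by_cases had : a ∈ d
    · exact hd had
    · have hlt : ∀ x ∈ d, x < a := fun x hx => lt_of_le_of_ne (ha.1 hx) fun h => had (h ▸ hx)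
      obtain ⟨x, hx⟩ := hne
      refine h2 a.1 a.2 ⟨zero_le.trans_lt (show x.1 < a.1 from hlt x hx), fun γ hγ => ?_⟩
      obtain ⟨y, hy, h4, -⟩ := ha.exists_between (a := a) (b := ⟨γ, hγ.trans a.2⟩) hγ
      exact ⟨y.1, hd hy, h4, hlt y hy⟩
  · obtain ⟨c, hc, hle⟩ := h3 a.1 a.2
    exact ⟨⟨c, h1 hc⟩, hc, hle⟩

lemma mem_acc_of_ac {C : Set Ordinal.{u}} {δ β : Ordinal.{u}} (h : ClubIn C δ) (hβ : β < δ)
    (hs : β = sSup (C ∩ Iio β)) : β ∈ acc C := by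
  refine ⟨?_, hs⟩
  obtain ⟨c, hc, hle⟩ := h.cofinal hβ
  refine (hle.trans_lt (lt_add_one c)).trans_le (le_csSup ⟨δ + 1, ?_⟩ ⟨c, hc, rfl⟩)
  rintro _ ⟨a, ha, rfl⟩
  exact add_le_add_left (le_of_lt (h.1 ha)) 1

lemma lt_of_mem_acc {C : Set Ordinal.{u}} {δ β : Ordinal.{u}} (h : C ⊆ Iio δ) (hβ : β ∈ acc C) :
    β < δ := by
  refine hβ.1.trans_le (csSup_le' ?_)
  rintro _ ⟨a, ha, rfl⟩
  exact Order.add_one_le_of_lt (h ha)

lemma statIn_iff {S : Set Ordinal.{u}} {δ : Ordinal.{u}} :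
    StatIn S δ ↔ ∀ C, ClubIn C δ → (S ∩ C).Nonempty := by
  constructor
  · intro h C hC
    obtain ⟨x, hx1, hx2⟩ := h hC.2
    exact ⟨x.1, hx1, hx2⟩
  · intro h t ht
    obtain ⟨x, hx1, y, hy, rfl⟩ := h (Subtype.val '' t) ⟨by
      rintro _ ⟨y, -, rfl⟩
      exact y.2, by rwa [preimage_image_eq _ Subtype.val_injective]⟩
    exact ⟨y, hx1, hy⟩

lemma StatIn.mono {S S' : Set Ordinal.{u}} {δ : Ordinal.{u}} (h : StatIn S δ)
    (hS : ∀ a ∈ S, a < δ → a ∈ S') : StatIn S' δ :=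
  IsStationary.mono h fun x hx => hS x.1 hx x.2

lemma lt_of_cof {δ a : Ordinal.{u}} (hδ : ℵ₀ < δ.cof) (ha : a < δ) : a + 1 < δ :=
  (one_lt_cof_iff.1 (Cardinal.one_lt_aleph0.trans hδ)).add_one_lt ha

/-- Suprema of `ω`-sequences below an ordinal of uncountable cofinality. -/
lemma exists_seq {δ : Ordinal.{u}} (hδ : ℵ₀ < δ.cof) (R : Ordinal.{u} → Ordinal.{u} → Prop)
    (step : ∀ a < δ, ∃ b < δ, a < b ∧ R a b) {a : Ordinal.{u}} (ha : a < δ) :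
    ∃ b : ℕ → Ordinal.{u}, ∃ β < δ, b 0 = a ∧ (∀ n, R (b n) (b (n + 1))) ∧ (∀ n, b n < β) ∧
      ∀ γ < β, ∃ n, γ < b (n + 1) ∧ γ ≤ b n := by
  have : ∀ x : Iio δ, ∃ y : Iio δ, x.1 < y.1 ∧ R x.1 y.1 := fun x =>
    let ⟨b, h1, h2, h3⟩ := step x.1 x.2; ⟨⟨b, h1⟩, h2, h3⟩
  choose nx h1 h2 using this
  let f : ℕ → Iio δ := fun n => nx^[n] ⟨a, ha⟩
  have hf : ∀ n, f (n + 1) = nx (f n) := fun n => Function.iterate_succ_apply' _ _ _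
  have hlt : ∀ n, (f n).1 < (f (n + 1)).1 := fun n => by
    rw [hf]
    exact h1 _
  refine ⟨fun n => (f n).1, ⨆ n, (f n).1, ?_, rfl, fun n => ?_, fun n => ?_, fun γ hγ => ?_⟩
  · apply lift_iSup_lt_of_lt_cof _ fun n => (f n).2
    simpa using hδ
  · simp only [hf]
    exact h2 _
  · exact (hlt n).trans_le (Ordinal.le_iSup (fun n => (f n).1) (n + 1))
  · obtain ⟨n, hn⟩ := Ordinal.lt_iSup_iff.1 hγ
    exact ⟨n, hn.trans (hlt n), hn.le⟩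

lemma clubIn_acc {D : Set Ordinal.{u}} {δ a : Ordinal.{u}} (hδ : ℵ₀ < δ.cof) (hD : ClubIn D δ)
    (ha : a < δ) : ClubIn {β | β < δ ∧ a < β ∧ Ac D β} δ := by
  refine clubIn_of (fun β hβ => hβ.1) (fun β hβ hac => ⟨hβ, ?_, hac.1, fun γ hγ => ?_⟩)
    fun γ hγ => ?_
  · obtain ⟨c, hc, -, h2⟩ := hac.2 0 hac.1
    exact hc.2.1.trans h2
  · obtain ⟨c, hc, h1, h2⟩ := hac.2 γ hγ
    obtain ⟨d, hd, h3, h4⟩ := hc.2.2.2 γ h1
    exact ⟨d, hd, h3, h4.trans h2⟩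
  · obtain ⟨b, β, hβ, hb0, hR, hlt, hcof⟩ := exists_seq hδ (fun _ y => y ∈ D) (fun x hx => by
      obtain ⟨c, hc, hle⟩ := hD.cofinal (lt_of_cof hδ hx)
      exact ⟨c, hD.1 hc, (lt_add_one x).trans_le hle, hc⟩) (max_lt ha hγ)
    have h0 := hlt 0
    rw [hb0] at h0
    refine ⟨β, ⟨hβ, (le_max_left _ _).trans_lt h0, zero_le.trans_lt h0, fun ε hε => ?_⟩,
      ((le_max_right _ _).trans_lt h0).le⟩
    obtain ⟨n, hn, -⟩ := hcof ε hε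
    exact ⟨b (n + 1), hR n, hn, hlt _⟩

/-- Ordinals with a countable cofinal family. -/
def OmLim (β : Ordinal.{u}) : Prop :=
  ∃ b : ℕ → Ordinal.{u}, (∀ n, b n < β) ∧ ∀ γ < β, ∃ n, γ ≤ b n

lemma statIn_omLim {δ : Ordinal.{u}} (hδ : ℵ₀ < δ.cof) : StatIn {β | OmLim β} δ := by
  rw [statIn_iff]
  intro C hC
  have h0 : 0 < δ := (one_lt_cof_iff.1 (Cardinal.one_lt_aleph0.trans hδ)).pos
  obtain ⟨b, β, hβ, -, hR, hlt, hcof⟩ := exists_seq hδ (fun _ y => y ∈ C) (fun x hx => by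
    obtain ⟨c, hc, hle⟩ := hC.cofinal (lt_of_cof hδ hx)
    exact ⟨c, hC.1 hc, (lt_add_one x).trans_le hle, hc⟩) h0
  refine ⟨β, ⟨b, hlt, fun γ hγ => ?_⟩, hC.closed hβ ⟨zero_le.trans_lt (hlt 0), fun γ hγ => ?_⟩⟩
  · obtain ⟨n, -, hn⟩ := hcof γ hγ
    exact ⟨n, hn⟩
  · obtain ⟨n, hn, -⟩ := hcof γ hγ
    exact ⟨b (n + 1), hR n, hn, hlt _⟩

section Regular

variable {lam : Cardinal.{u}} (hreg : lam.IsRegular) (hunc : ℵ₀ < lam)
include hreg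

lemma bdd_of_lt {s : Set Ordinal.{u}} (hs : #s < Cardinal.lift.{u + 1} lam)
    (h : ∀ a ∈ s, a < lam.ord) : ∃ β < lam.ord, ∀ a ∈ s, a < β := by
  have h1 : sSup s < lam.ord :=
    sSup_lt_of_lt_cof (by rwa [← lift_cof, hreg.cof_ord]) h
  exact ⟨sSup s + 1, (Cardinal.isSuccLimit_ord hreg.aleph0_le).add_one_lt h1, fun a ha =>
    (le_csSup ⟨lam.ord, fun b hb => (h b hb).le⟩ ha).trans_lt (lt_add_one _)⟩

lemma cof_Iio_ord : Order.cof (Iio lam.ord) = Cardinal.lift.{u + 1} lam := by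
  rw [cof_Iio, ← lift_cof, hreg.cof_ord]

include hunc

lemma cof_ord_unc : ℵ₀ < lam.ord.cof := by rwa [hreg.cof_ord]

lemma cof_Iio_ne : Order.cof (Iio lam.ord) ≠ ℵ₀ := by
  rw [cof_Iio_ord hreg]
  exact (Cardinal.aleph0_lt_lift.2 hunc).ne'

/-- The closure points of a function form a club. -/
lemma clubIn_closure (g : Ordinal.{u} → Ordinal.{u}) (hg : ∀ a < lam.ord, g a < lam.ord)
    {a : Ordinal.{u}} (ha : a < lam.ord) :
    ClubIn {β | β < lam.ord ∧ a < β ∧ ∀ α < β, g α < β} lam.ord := by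
  refine clubIn_of (fun β hβ => hβ.1) (fun β hβ hac => ⟨hβ, ?_, fun γ hγ => ?_⟩)
    fun γ hγ => ?_
  · obtain ⟨c, hc, -, h2⟩ := hac.2 0 hac.1
    exact hc.2.1.trans h2
  · obtain ⟨c, hc, h1, h2⟩ := hac.2 γ hγ
    exact (hc.2.2 γ h1).trans h2
  · obtain ⟨b, β, hβ, hb0, hR, hlt, hcof⟩ := exists_seq (cof_ord_unc hreg hunc)
      (fun x y => ∀ α ≤ x, g α < y) (fun x hx => by
      obtain ⟨c, hc, hb⟩ := bdd_of_lt hreg (s := insert x (g '' Iio (x + 1))) (by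
        refine (mk_insert_le.trans (add_le_add_left mk_image_le 1)).trans_lt ?_
        rw [Cardinal.mk_Iio_ordinal]
        refine Cardinal.add_lt_of_lt (Cardinal.aleph0_le_lift.2 hunc.le) ?_
          (Cardinal.one_lt_aleph0.trans (Cardinal.aleph0_lt_lift.2 hunc))
        rw [Cardinal.lift_lt, ← Cardinal.lt_ord]
        exact lt_of_cof (cof_ord_unc hreg hunc) hx) (by
        rintro _ (rfl | ⟨α, hα, rfl⟩)
        · exact hx
        · exact hg α (hα.trans (lt_of_cof (cof_ord_unc hreg hunc) hx)))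
      exact ⟨c, hc, hb x (mem_insert _ _), fun α hα =>
        hb _ (mem_insert_of_mem _ ⟨α, hα.trans_lt (lt_add_one x), rfl⟩)⟩) (max_lt ha hγ)
    have h0 := hlt 0
    rw [hb0] at h0
    refine ⟨β, ⟨hβ, (le_max_left _ _).trans_lt h0, fun ε hε => ?_⟩,
      ((le_max_right _ _).trans_lt h0).le⟩
    obtain ⟨n, -, hn⟩ := hcof ε hε
    exact (hR n ε hn).trans (hlt _)

lemma StatIn.inter_Ioi {S : Set Ordinal.{u}} (hS : StatIn S lam.ord) {a : Ordinal.{u}}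
    (ha : a < lam.ord) : StatIn (S ∩ Ioi a) lam.ord := by
  rw [statIn_iff] at hS ⊢
  intro C hC
  obtain ⟨β, hβ1, hβ2⟩ := hS _ (clubIn_acc (cof_ord_unc hreg hunc) hC ha)
  exact ⟨β, ⟨hβ1, hβ2.2.1⟩, hC.closed hβ2.1 hβ2.2.2⟩

lemma exists_stat_of_iUnion {ι : Type (u + 1)} (hι : #ι < Cardinal.lift.{u + 1} lam)
    {S : Set Ordinal.{u}} (hS : StatIn S lam.ord) (f : ι → Set Ordinal.{u})
    (hf : ∀ a ∈ S, a < lam.ord → ∃ i, a ∈ f i) : ∃ i, StatIn (f i) lam.ord := by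
  have h1 : StatIn (⋃ i, f i) lam.ord := hS.mono fun a ha hl => mem_iUnion.2 (hf a ha hl)
  unfold StatIn at h1
  rw [preimage_iUnion, isStationary_iUnion_iff (cof_Iio_ne hreg hunc)
    (by rw [cof_Iio_ord hreg]; simpa using hι)] at h1
  exact h1

lemma exists_width {κ : Cardinal.{u}} (hκ : κ < lam) (w : Ordinal.{u} → Cardinal.{u + 1})
    (hw : ∀ a < lam.ord, w a < Cardinal.lift.{u + 1} κ) {S : Set Ordinal.{u}}
    (hS : StatIn S lam.ord) :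
    ∃ θ < Cardinal.lift.{u + 1} κ, StatIn {a ∈ S | w a ≤ θ} lam.ord := by
  obtain ⟨o, ho⟩ := exists_stat_of_iUnion hreg hunc (ι := Iio κ.ord) (by simpa using hκ) hS
    (fun o => {a ∈ S | w a ≤ Cardinal.lift.{u + 1} o.1.card}) (fun a ha hl => by
      obtain ⟨c, hc, hce⟩ := Cardinal.lt_lift_iff.1 (hw a hl)
      exact ⟨⟨c.ord, Cardinal.ord_lt_ord.2 hc⟩, ha, by simp [hce]⟩)
  exact ⟨_, Cardinal.lift_lt.2 (Cardinal.lt_ord.1 o.2), ho⟩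

end Regular

end Pool.Agent.MP_c650be_lc

end

-- part MP_c650be_lc.Ideal
section

/-!
Complete saturated ideals: exhaustion, stabilisation and least unbounded functions.
-/

namespace Pool.Agent.MP_c650be_lc

open Cardinal Ordinal Set

universe u

/-- A `θ⁺`-complete ideal of subsets of `I`. -/
structure Idl (I : Type (u + 1)) (θ : Cardinal.{u + 1}) where
  Null : Set I → Prop
  mono : ∀ {X Y : Set I}, Null Y → X ⊆ Y → Null X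
  sUnion : ∀ 𝒳 : Set (Set I), #𝒳 ≤ θ → (∀ X ∈ 𝒳, Null X) → Null (⋃₀ 𝒳)

namespace Idl

variable {I : Type (u + 1)} {θ : Cardinal.{u + 1}} (J : Idl I θ)

lemma null_empty : J.Null ∅ := by
  simpa using J.sUnion ∅ (by simp) (by simp)

lemma biUnion {ι : Type (u + 1)} {s : Set ι} (hs : #s ≤ θ) (f : ι → Set I)
    (h : ∀ i ∈ s, J.Null (f i)) : J.Null (⋃ i ∈ s, f i) := by
  rw [← sUnion_image]
  refine J.sUnion _ (mk_image_le.trans hs) ?_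
  rintro _ ⟨i, hi, rfl⟩
  exact h i hi

lemma iUnion_nat (hθ : ℵ₀ ≤ θ) (f : ℕ → Set I) (h : ∀ n, J.Null (f n)) : J.Null (⋃ n, f n) := by
  rw [← sUnion_range]
  refine J.sUnion _ ((le_aleph0_iff_set_countable.2 (countable_range f)).trans hθ) ?_
  rintro _ ⟨i, rfl⟩
  exact h i

lemma union (hθ : ℵ₀ ≤ θ) {X Y : Set I} (hX : J.Null X) (hY : J.Null Y) : J.Null (X ∪ Y) := by
  rw [← sUnion_pair]
  refine J.sUnion _ ((le_aleph0_iff_set_countable.2 (toFinite _).countable).trans hθ) ?_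
  rintro _ (rfl | rfl)
  · exact hX
  · exact hY

/-- Restriction of an ideal to a set. -/
def restrict (X : Set I) : Idl I θ where
  Null Y := J.Null (Y ∩ X)
  mono h hXY := J.mono h (inter_subset_inter_left _ hXY)
  sUnion 𝒳 h1 h2 := by
    rw [sUnion_eq_biUnion, iUnion₂_inter]
    exact J.biUnion h1 _ h2

/-- Image of an ideal under a map. -/
def map {I' : Type (u + 1)} (f : I → I') : Idl I' θ where
  Null Y := J.Null (f ⁻¹' Y)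
  mono h hXY := J.mono h (preimage_mono hXY)
  sUnion 𝒳 h1 h2 := by
    rw [preimage_sUnion]
    exact J.biUnion h1 _ h2

/-- There are at most `θ` pairwise disjoint positive sets. -/
def Saturated : Prop :=
  ∀ 𝒴 : Set (Set I), 𝒴.PairwiseDisjoint id → (∀ Y ∈ 𝒴, ¬ J.Null Y) → #𝒴 ≤ θ

lemma exhaustion (hJ : J.Saturated) (P : Set I → Prop) :
    ∃ 𝒴 : Set (Set I), #𝒴 ≤ θ ∧ 𝒴.PairwiseDisjoint id ∧ (∀ Y ∈ 𝒴, ¬ J.Null Y ∧ P Y) ∧
      ∀ Y, ¬ J.Null Y → P Y → ¬ Disjoint Y (⋃₀ 𝒴) := by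
  obtain ⟨𝒴, h𝒴⟩ := zorn_subset
    {𝒴 : Set (Set I) | 𝒴.PairwiseDisjoint id ∧ ∀ Y ∈ 𝒴, ¬ J.Null Y ∧ P Y} (fun c hc hchain => by
      refine ⟨⋃₀ c, ⟨?_, ?_⟩, fun s hs => subset_sUnion_of_mem hs⟩
      · rintro a ⟨s, hs, ha⟩ b ⟨t, ht, hb⟩ hab
        rcases hchain.total hs ht with h | h
        · exact (hc ht).1 (h ha) hb hab
        · exact (hc hs).1 ha (h hb) hab
      · rintro Y ⟨s, hs, hY⟩
        exact (hc hs).2 Y hY)
  refine ⟨𝒴, hJ 𝒴 h𝒴.prop.1 fun Y hY => (h𝒴.prop.2 Y hY).1, h𝒴.prop.1, h𝒴.prop.2,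
    fun Y hY hP hdisj => ?_⟩
  have hmem : Y ∈ 𝒴 := by
    refine h𝒴.le_of_ge (y := insert Y 𝒴) ⟨?_, ?_⟩ (subset_insert _ _) (mem_insert _ _)
    · exact h𝒴.prop.1.insert fun Z hZ _ => hdisj.mono_right (subset_sUnion_of_mem hZ)
    · rintro Z (rfl | hZ)
      · exact ⟨hY, hP⟩
      · exact h𝒴.prop.2 Z hZ
  have : Y = ∅ := disjoint_self.1 (hdisj.mono_right (subset_sUnion_of_mem hmem))
  exact hY (this ▸ J.null_empty)

variable {lam : Cardinal.{u}}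

lemma stabilise (hJ : J.Saturated) (hreg : lam.IsRegular) (hθ : θ < Cardinal.lift.{u + 1} lam)
    (X : Set I) (g : I → Ordinal.{u}) :
    ∃ γ0 < lam.ord, ∀ γ < lam.ord, J.Null {x ∈ X | γ0 ≤ g x ∧ g x < γ} := by
  obtain ⟨𝒴, h1, -, h3, h4⟩ := J.exhaustion hJ
    (fun Y => ∃ γ < lam.ord, ∀ x ∈ Y, g x < γ)
  have : ∀ Y : Set I, ∃ γ < lam.ord, Y ∈ 𝒴 → ∀ x ∈ Y, g x < γ := by
    intro Y
    by_cases hY : Y ∈ 𝒴
    · obtain ⟨γ, hγ, h⟩ := (h3 Y hY).2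
      exact ⟨γ, hγ, fun _ => h⟩
    · exact ⟨0, hreg.ord_pos, fun h => absurd h hY⟩
  choose bd hbd1 hbd2 using this
  obtain ⟨γ0, hγ0, hb⟩ := bdd_of_lt hreg (s := bd '' 𝒴) ((mk_image_le.trans h1).trans_lt hθ) (by
    rintro _ ⟨Y, -, rfl⟩
    exact hbd1 Y)
  refine ⟨γ0, hγ0, fun γ hγ => ?_⟩
  by_contra hpos
  apply h4 _ hpos ⟨γ, hγ, fun x hx => hx.2.2⟩
  rw [disjoint_left]
  rintro x hx ⟨Y, hY, hxY⟩
  exact absurd ((hbd2 Y hY x hxY).trans (hb _ ⟨Y, hY, rfl⟩)) (not_lt.2 hx.2.1)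

/-- `f` is not bounded below `l` on any positive subset of `X`. -/
def Unb (l : Ordinal.{u}) (X : Set I) (f : I → Ordinal.{u}) : Prop :=
  ∀ γ < l, J.Null {x ∈ X | f x < γ}

lemma exists_minimal (hJ : J.Saturated) (hθ : ℵ₀ ≤ θ) (l : Ordinal.{u}) {X0 : Set I}
    {f0 : I → Ordinal.{u}} (hX0 : ¬ J.Null X0) (hf0 : J.Unb l X0 f0) (hl : ∀ x ∈ X0, f0 x < l) :
    ∃ (X : Set I) (f : I → Ordinal.{u}), ¬ J.Null X ∧ J.Unb l X f ∧ (∀ x ∈ X, f x < l) ∧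
      ∀ (Y : Set I) (g : I → Ordinal.{u}), Y ⊆ X → ¬ J.Null Y → (∀ x ∈ Y, g x < f x) →
        ¬ J.Unb l Y g := by
  classical
  by_contra hcon
  push Not at hcon
  let Good := {p : Set I × (I → Ordinal.{u}) //
    ¬ J.Null p.1 ∧ J.Unb l p.1 p.2 ∧ ∀ x ∈ p.1, p.2 x < l}
  have step : ∀ p : Good, ∃ q : Good, q.1.1 ⊆ p.1.1 ∧ J.Null (p.1.1 \ q.1.1) ∧
      ∀ x ∈ q.1.1, q.1.2 x < p.1.2 x := by
    rintro ⟨⟨X, f⟩, hX, hf, hfl⟩
    obtain ⟨𝒴, h1, h2, h3, h4⟩ := J.exhaustion hJ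
      (fun Y => Y ⊆ X ∧ ∃ g : I → Ordinal.{u}, (∀ x ∈ Y, g x < f x) ∧ J.Unb l Y g)
    have : ∀ Y : Set I, ∃ g : I → Ordinal.{u}, Y ∈ 𝒴 → (∀ x ∈ Y, g x < f x) ∧ J.Unb l Y g := by
      intro Y
      by_cases hY : Y ∈ 𝒴
      · obtain ⟨g, hg⟩ := (h3 Y hY).2.2
        exact ⟨g, fun _ => hg⟩
      · exact ⟨f, fun h => absurd h hY⟩
    choose g hg using this
    have hsel : ∀ x, ∃ Y, x ∈ ⋃₀ 𝒴 → Y ∈ 𝒴 ∧ x ∈ Y := by
      intro x
      by_cases hx : x ∈ ⋃₀ 𝒴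
      · obtain ⟨Y, hY, hxY⟩ := hx
        exact ⟨Y, fun _ => ⟨hY, hxY⟩⟩
      · exact ⟨∅, fun h => absurd h hx⟩
    choose sel hsel using hsel
    have hsub : ⋃₀ 𝒴 ⊆ X := sUnion_subset fun Y hY => (h3 Y hY).2.1
    have hnull : J.Null (X \ ⋃₀ 𝒴) := by
      by_contra hpos
      obtain ⟨Y, g', hY1, hY2, hY3, hY4⟩ := hcon (X \ ⋃₀ 𝒴) f hpos
        (fun γ hγ => J.mono (hf γ hγ) fun x hx => ⟨hx.1.1, hx.2⟩) (fun x hx => hfl x hx.1)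
      exact h4 Y hY2 ⟨hY1.trans diff_subset, g', hY3, hY4⟩
        (disjoint_sdiff_left.mono_left hY1)
    have hlt : ∀ x ∈ ⋃₀ 𝒴, g (sel x) x < f x := fun x hx =>
      (hg _ (hsel x hx).1).1 x (hsel x hx).2
    refine ⟨⟨(⋃₀ 𝒴, fun x => g (sel x) x), fun hn => hX ?_, fun γ hγ => ?_,
      fun x hx => (hlt x hx).trans (hfl x (hsub hx))⟩, hsub, hnull, hlt⟩
    · exact J.mono (J.union hθ hn hnull) fun x hx => by
        by_cases h : x ∈ ⋃₀ 𝒴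
        · exact Or.inl h
        · exact Or.inr ⟨hx, h⟩
    · refine J.mono (J.biUnion h1 (fun Y => {x ∈ Y | g Y x < γ})
        fun Y hY => (hg Y hY).2 γ hγ) fun x hx => ?_
      exact mem_iUnion₂.2 ⟨sel x, (hsel x hx.1).1, (hsel x hx.1).2, hx.2⟩
  choose nx h1 h2 h3 using step
  let p : ℕ → Good := fun n => nx^[n] ⟨(X0, f0), hX0, hf0, hl⟩
  have hp : ∀ n, p (n + 1) = nx (p n) := fun n => Function.iterate_succ_apply' _ _ _
  have hnull := J.iUnion_nat hθ (fun n => (p n).1.1 \ (p (n + 1)).1.1) fun n => by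
    simp only [hp]
    exact h2 _
  have : ∃ x, ∀ n, x ∈ (p n).1.1 := by
    by_contra hno
    push Not at hno
    refine hX0 (J.mono hnull fun x hx => ?_)
    have hex := hno x
    have h0 : x ∈ (p 0).1.1 := hx
    obtain ⟨n, hn1, hn2⟩ : ∃ n, x ∈ (p n).1.1 ∧ x ∉ (p (n + 1)).1.1 := by
      by_contra hno2
      push Not at hno2
      obtain ⟨n, hn⟩ := hex
      exact hn (Nat.rec h0 hno2 n)
    exact mem_iUnion.2 ⟨n, hn1, hn2⟩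
  obtain ⟨x, hx⟩ := this
  obtain ⟨n, hn⟩ := WellFounded.not_rel_apply_succ (r := (· < ·)) (fun n => (p n).1.2 x)
  apply hn
  have := hx (n + 1)
  simp only [hp] at this ⊢
  exact h3 _ x this

end Idl

end Pool.Agent.MP_c650be_lc

end

-- part MP_c650be_lc.Thread
section

/-!
Threads from complete ideals.
-/

namespace Pool.Agent.MP_c650be_lc

open Cardinal Ordinal Set

universe u

variable {lam : Cardinal.{u}} {η : Cardinal.{u}} {θ : Cardinal.{u + 1}}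
  {𝒞 : Ordinal.{u} → Set (Set Ordinal.{u})}

lemma IsCoherent.restrict {l : Ordinal.{u}} (h : IsCoherent l η 𝒞) {β δ : Ordinal.{u}}
    {D : Set Ordinal.{u}} (hδ : δ < l) (hD : D ∈ 𝒞 δ) (hβ : β < δ) (hac : Ac D β) :
    D ∩ Iio β ∈ 𝒞 β :=
  h.2 δ hδ D hD β (mem_acc_of_ac ((h.1 δ hδ).2.1 D hD) hβ hac.sSup_eq)

/-- A normal subtree with small levels along an unbounded set yields a thread. -/
lemma thread_of_normal (hreg : lam.IsRegular) (hcoh : IsCoherent lam.ord η 𝒞) (hθ0 : ℵ₀ ≤ θ)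
    (hθ : Order.succ θ < Cardinal.lift.{u + 1} lam) (B : Set Ordinal.{u})
    (hB : ∀ β ∈ B, β < lam.ord) (hBu : ∀ α < lam.ord, ∃ β ∈ B, α < β)
    (L : Ordinal.{u} → Set (Set Ordinal.{u})) (hL : ∀ β ∈ B, L β ⊆ 𝒞 β)
    (hne : ∀ β ∈ B, (L β).Nonempty) (hcard : ∀ β ∈ B, #(L β) ≤ θ)
    (hres : ∀ β ∈ B, ∀ β' ∈ B, β ≤ β' → ∀ C ∈ L β', C ∩ Iio β ∈ L β)
    (hext : ∀ β ∈ B, ∀ β' ∈ B, β ≤ β' → ∀ C ∈ L β, ∃ C' ∈ L β', C' ∩ Iio β = C) :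
    ∃ D, IsThread lam.ord 𝒞 D := by
  have hθ' : θ < Cardinal.lift.{u + 1} lam := (Order.lt_succ θ).trans hθ
  have hclub : ∀ β ∈ B, ∀ C ∈ L β, ClubIn C β :=
    fun β hβ C hC => (hcoh.1 β (hB β hβ)).2.1 C (hL β hβ hC)
  let Df : Set Ordinal.{u} → Set Ordinal.{u} → Ordinal.{u} → Prop :=
    fun C C' ξ => ¬ (ξ ∈ C ↔ ξ ∈ C') ∧ ∀ ζ < ξ, (ζ ∈ C ↔ ζ ∈ C')
  let Sp : Set Ordinal.{u} := {ξ | ∃ β ∈ B, ∃ C ∈ L β, ∃ C' ∈ L β, ξ < β ∧ Df C C' ξ}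
  have hSp : ∀ α < lam.ord, #(Sp ∩ Iio α : Set _) ≤ θ := by
    intro α hα
    obtain ⟨β0, hβ0, hαβ⟩ := hBu α hα
    have h1 : Sp ∩ Iio α ⊆ (fun p : Set Ordinal.{u} × Set Ordinal.{u} =>
        sInf {ξ | ¬ (ξ ∈ p.1 ↔ ξ ∈ p.2)}) '' (L β0 ×ˢ L β0) := by
      rintro ξ ⟨⟨β, hβ, C, hC, C', hC', hξβ, hdf⟩, hξα⟩
      have hξ0 : ξ < β0 := lt_trans hξα hαβ
      have key : ∀ E ∈ L β, ∃ E' ∈ L β0, ∀ ζ ≤ ξ, (ζ ∈ E' ↔ ζ ∈ E) := by
        intro E hE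
        rcases le_total β0 β with h | h
        · exact ⟨_, hres β0 hβ0 β hβ h E hE, fun ζ hζ =>
            ⟨fun h => h.1, fun h => ⟨h, hζ.trans_lt hξ0⟩⟩⟩
        · obtain ⟨E', hE', he⟩ := hext β hβ β0 hβ0 h E hE
          refine ⟨E', hE', fun ζ hζ => ?_⟩
          rw [← he]
          exact ⟨fun h => ⟨h, hζ.trans_lt hξβ⟩, fun h => h.1⟩
      obtain ⟨E, hE, he⟩ := key C hC
      obtain ⟨E', hE', he'⟩ := key C' hC'
      refine ⟨(E, E'), ⟨hE, hE'⟩, IsLeast.csInf_eq ⟨?_, fun ζ hζ => ?_⟩⟩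
      · change ¬ (ξ ∈ E ↔ ξ ∈ E')
        rw [he ξ le_rfl, he' ξ le_rfl]
        exact hdf.1
      · by_contra hlt
        rw [not_le] at hlt
        apply hζ
        change ζ ∈ E ↔ ζ ∈ E'
        rw [he ζ hlt.le, he' ζ hlt.le]
        exact hdf.2 ζ hlt
    refine (mk_le_mk_of_subset h1).trans (mk_image_le.trans ?_)
    rw [mk_setProd]
    exact (mul_le_mul' (hcard β0 hβ0) (hcard β0 hβ0)).trans (Cardinal.mul_eq_self hθ0).le
  have hSpl : ∀ ξ ∈ Sp, ξ < lam.ord := by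
    rintro ξ ⟨β, hβ, -, -, -, -, h, -⟩
    exact h.trans (hB β hβ)
  have hbd : ∃ ρ < lam.ord, ∀ ξ ∈ Sp, ξ < ρ := by
    rcases le_or_gt (#Sp) θ with h | h
    · exact bdd_of_lt hreg (h.trans_lt hθ') hSpl
    · exfalso
      obtain ⟨t, hts, ht⟩ := Cardinal.le_mk_iff_exists_subset.1 (Order.succ_le_of_lt h)
      obtain ⟨α, hα, hb⟩ := bdd_of_lt hreg (ht.trans_lt hθ) fun a ha => hSpl a (hts ha)
      have : #t ≤ θ :=
        (mk_le_mk_of_subset fun a ha => mem_inter (hts ha) (hb a ha)).trans (hSp α hα)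
      rw [ht] at this
      exact absurd this (not_le.2 (Order.lt_succ θ))
  obtain ⟨ρ, hρ, hρb⟩ := hbd
  obtain ⟨β0, hβ0, hρβ⟩ := hBu ρ hρ
  obtain ⟨C0, hC0⟩ := hne β0 hβ0
  have huniq : ∀ β ∈ B, ∀ C ∈ L β, ∀ C' ∈ L β, C ∩ Iio β0 = C0 → C' ∩ Iio β0 = C0 → C = C' := by
    intro β hβ C hC C' hC' h1 h2
    ext ξ
    induction ξ using WellFoundedLT.induction with
    | ind ξ ih =>
      by_contra hne'
      have hξβ : ξ < β := by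
        by_contra hge
        exact hne' ⟨fun h => absurd ((hclub β hβ C hC).1 h) hge,
          fun h => absurd ((hclub β hβ C' hC').1 h) hge⟩
      have hξ : ξ < β0 := (hρb ξ ⟨β, hβ, C, hC, C', hC', hξβ, hne', ih⟩).trans hρβ
      have := Set.ext_iff.1 (h1.trans h2.symm) ξ
      exact hne' ⟨fun h => (this.1 ⟨h, hξ⟩).1, fun h => (this.2 ⟨h, hξ⟩).1⟩
  let D : Set Ordinal.{u} := {ξ | ∃ β ∈ B, β0 ≤ β ∧ ∃ C ∈ L β, C ∩ Iio β0 = C0 ∧ ξ ∈ C}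
  have hD : ∀ α < lam.ord, ∃ β ∈ B, α < β ∧ ∃ C ∈ L β, D ∩ Iio β = C := by
    intro α hα
    obtain ⟨β, hβ, hαβ⟩ := hBu (max α β0) (max_lt hα (hB β0 hβ0))
    have hβ0β : β0 ≤ β := ((le_max_right _ _).trans_lt hαβ).le
    obtain ⟨C, hC, hCC⟩ := hext β0 hβ0 β hβ hβ0β C0 hC0
    refine ⟨β, hβ, (le_max_left _ _).trans_lt hαβ, C, hC, ?_⟩
    ext ξ
    constructor
    · rintro ⟨⟨β', hβ', h0, C', hC', hCC', hξ⟩, hξβ⟩
      rcases le_total β β' with h | h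
      · rw [huniq β hβ C hC _ (hres β hβ β' hβ' h C' hC') hCC (by
          rw [inter_assoc, inter_eq_right.2 (Iio_subset_Iio hβ0β), hCC'])]
        exact ⟨hξ, hξβ⟩
      · have := huniq β' hβ' C' hC' _ (hres β' hβ' β hβ h C hC) hCC' (by
          rw [inter_assoc, inter_eq_right.2 (Iio_subset_Iio h0), hCC])
        rw [this] at hξ
        exact hξ.1
    · intro hξ
      exact ⟨⟨β, hβ, hβ0β, C, hC, hCC, hξ⟩, (hclub β hβ C hC).1 hξ⟩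
  have hDl : D ⊆ Iio lam.ord := by
    rintro ξ ⟨β, hβ, -, C, hC, -, hξ⟩
    exact lt_trans ((hclub β hβ C hC).1 hξ) (hB β hβ)
  refine ⟨D, clubIn_of hDl (fun α hα hac => ?_) (fun α hα => ?_), fun α hα => ?_⟩
  · obtain ⟨β, hβ, hαβ, C, hC, hDC⟩ := hD α hα
    have : α ∈ C := (hclub β hβ C hC).closed hαβ
      (hac.mono fun c hc hcα => hDC ▸ ⟨hc, hcα.trans hαβ⟩)
    rw [← hDC] at this
    exact this.1
  · obtain ⟨β, hβ, hαβ, C, hC, hDC⟩ := hD α hα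
    obtain ⟨c, hc, hle⟩ := (hclub β hβ C hC).cofinal hαβ
    rw [← hDC] at hc
    exact ⟨c, hc.1, hle⟩
  · obtain ⟨β, hβ, hαβ, C, hC, hDC⟩ := hD α (lt_of_mem_acc hDl hα)
    have e : D ∩ Iio α = C ∩ Iio α := by
      rw [← hDC, inter_assoc, inter_eq_right.2 (Iio_subset_Iio hαβ.le)]
    rw [e]
    exact hcoh.2 β (hB β hβ) C (hL β hβ hC) α
      (mem_acc_of_ac (hclub β hβ C hC) hαβ (e ▸ hα.2))

/-- A complete proper ideal whose points carry clubs of the sequence meeting long intervals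
almost everywhere yields a thread. -/
lemma thread_of_ideal (hreg : lam.IsRegular) (hunc : ℵ₀ < lam) (hcoh : IsCoherent lam.ord η 𝒞)
    (hθ0 : ℵ₀ ≤ θ) (hθ : Order.succ θ < Cardinal.lift.{u + 1} lam)
    (hS0 : StatIn {β | OmLim β ∧ #(𝒞 β) ≤ θ} lam.ord)
    {I : Type (u + 1)} (J : Idl I θ) (hJ : ¬ J.Null univ) (δ : I → Ordinal.{u})
    (D : I → Set Ordinal.{u}) (hD : ∀ x, δ x < lam.ord ∧ D x ∈ 𝒞 (δ x))
    (hint : ∀ α < lam.ord, ∃ γ < lam.ord, J.Null {x | ¬ ∃ c ∈ D x, α < c ∧ c < γ}) :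
    ∃ D, IsThread lam.ord 𝒞 D := by
  have : ∀ α, ∃ γ, α < lam.ord →
      γ < lam.ord ∧ J.Null {x | ¬ ∃ c ∈ D x, α < c ∧ c < γ} := by
    intro α
    by_cases hα : α < lam.ord
    · obtain ⟨γ, h1, h2⟩ := hint α hα
      exact ⟨γ, fun _ => ⟨h1, h2⟩⟩
    · exact ⟨0, fun h => absurd h hα⟩
  choose g hg using this
  let B : Set Ordinal.{u} := {β | β < lam.ord ∧ OmLim β ∧ #(𝒞 β) ≤ θ ∧ ∀ α < β, g α < β}
  have hgood : ∀ β ∈ B, J.Null {x | ¬ (β < δ x ∧ Ac (D x) β)} := by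
    rintro β ⟨hβ, ⟨b, hb1, hb2⟩, -, hcl⟩
    refine J.mono (J.union hθ0 (hg β hβ).2 (J.iUnion_nat hθ0 _
      fun n => (hg (b n) ((hb1 n).trans hβ)).2)) fun x hx => ?_
    by_contra hcon
    have hc1 : ∃ c ∈ D x, β < c ∧ c < g β := by
      by_contra h
      exact hcon (Or.inl h)
    have hc2 : ∀ n, ∃ c ∈ D x, b n < c ∧ c < g (b n) := by
      intro n
      by_contra h
      exact hcon (Or.inr (mem_iUnion.2 ⟨n, h⟩))
    obtain ⟨c, hc, h1, -⟩ := hc1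
    refine hx ⟨h1.trans (((hcoh.1 _ (hD x).1).2.1 _ (hD x).2).1 hc),
      zero_le.trans_lt (hb1 0), fun γ hγ => ?_⟩
    obtain ⟨n, hn⟩ := hb2 γ hγ
    obtain ⟨c, hc, h4, h5⟩ := hc2 n
    exact ⟨c, hc, hn.trans_lt h4, h5.trans (hcl _ (hb1 n))⟩
  let X : Ordinal.{u} → Set Ordinal.{u} → Set I := fun β C => {x | D x ∩ Iio β = C}
  have hcover : ∀ β ∈ B, ∀ Y, ¬ J.Null Y → ∃ C ∈ 𝒞 β, ¬ J.Null (Y ∩ X β C) := by
    intro β hβ Y hY
    by_contra hcon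
    push Not at hcon
    refine hY (J.mono (J.union hθ0 (hgood β hβ) (J.biUnion hβ.2.2.1 _ hcon)) fun x hx => ?_)
    by_cases h : β < δ x ∧ Ac (D x) β
    · exact Or.inr (mem_iUnion₂.2 ⟨_, hcoh.restrict (hD x).1 (hD x).2 h.1 h.2, hx, rfl⟩)
    · exact Or.inl h
  have hXX : ∀ β β' C C', β ≤ β' → ¬ J.Null (X β C ∩ X β' C') → C' ∩ Iio β = C := by
    intro β β' C C' h hn
    have : (X β C ∩ X β' C').Nonempty := by
      by_contra he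
      rw [not_nonempty_iff_eq_empty] at he
      exact hn (he ▸ J.null_empty)
    obtain ⟨x, hx1, hx2⟩ := this
    change D x ∩ Iio β = C at hx1
    change D x ∩ Iio β' = C' at hx2
    rw [← hx2, ← hx1, inter_assoc, inter_eq_right.2 (Iio_subset_Iio h)]
  refine thread_of_normal hreg hcoh hθ0 hθ B (fun β hβ => hβ.1) (fun α hα => ?_)
    (fun β => {C ∈ 𝒞 β | ¬ J.Null (X β C)}) (fun β _ C hC => hC.1) (fun β hβ => ?_)
    (fun β hβ => (mk_le_mk_of_subset fun C hC => hC.1).trans hβ.2.2.1)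
    (fun β hβ β' _ h C' hC' => ?_) (fun β _ β' hβ' h C hC => ?_)
  · obtain ⟨β, h1, h2⟩ := statIn_iff.1 hS0 _
      (clubIn_closure hreg hunc g (fun a ha => (hg a ha).1) hα)
    exact ⟨β, ⟨h2.1, h1.1, h1.2, h2.2.2⟩, h2.2.1⟩
  · obtain ⟨C, hC, hn⟩ := hcover β hβ univ hJ
    exact ⟨C, hC, by rwa [univ_inter] at hn⟩
  · obtain ⟨C, hC, hn⟩ := hcover β hβ _ hC'.2
    rw [inter_comm] at hn
    rw [hXX β β' C C' h hn]
    exact ⟨hC, fun h0 => hn (J.mono h0 inter_subset_left)⟩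
  · obtain ⟨C', hC', hn⟩ := hcover β' hβ' _ hC.2
    exact ⟨C', ⟨hC', fun h0 => hn (J.mono h0 inter_subset_right)⟩, hXX β β' C C' h hn⟩

/-- A complete saturated ideal with an unbounded function into `lam` yields a thread. -/
lemma thread_of_unbounded (hreg : lam.IsRegular) (hunc : ℵ₀ < lam)
    (hcoh : IsCoherent lam.ord η 𝒞) (hθ0 : ℵ₀ ≤ θ)
    (hθ : Order.succ θ < Cardinal.lift.{u + 1} lam)
    (hS0 : StatIn {β | OmLim β ∧ #(𝒞 β) ≤ θ} lam.ord)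
    {I : Type (u + 1)} (J : Idl I θ) (hJ : J.Saturated) {X0 : Set I} {f0 : I → Ordinal.{u}}
    (hX0 : ¬ J.Null X0) (hf0 : J.Unb lam.ord X0 f0) (hl : ∀ x ∈ X0, f0 x < lam.ord) :
    ∃ D, IsThread lam.ord 𝒞 D := by
  classical
  have hθ' : θ < Cardinal.lift.{u + 1} lam := (Order.lt_succ θ).trans hθ
  obtain ⟨X, f, hX, hf, hfl, hmin⟩ := J.exists_minimal hJ hθ0 lam.ord hX0 hf0 hl
  have : ∀ x, ∃ (δ : Ordinal.{u}) (D : Set Ordinal.{u}), (δ < lam.ord ∧ D ∈ 𝒞 δ) ∧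
      (x ∈ X → δ = f x) := by
    intro x
    by_cases hx : x ∈ X
    · obtain ⟨D, hD⟩ := (hcoh.1 _ (hfl x hx)).1
      exact ⟨f x, D, ⟨hfl x hx, hD⟩, fun _ => rfl⟩
    · obtain ⟨D, hD⟩ := (hcoh.1 _ hreg.ord_pos).1
      exact ⟨0, D, ⟨hreg.ord_pos, hD⟩, fun h => absurd h hx⟩
  choose δ D hD hδ using this
  refine thread_of_ideal hreg hunc hcoh hθ0 hθ hS0 (J.restrict X)
    (by simpa [Idl.restrict] using hX) δ D hD fun α hα => ?_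
  have hα1 : α + 1 < lam.ord := lt_of_cof (cof_ord_unc hreg hunc) hα
  have hα2 : α + 1 + 1 < lam.ord := lt_of_cof (cof_ord_unc hreg hunc) hα1
  have : ∀ x, ∃ c, α + 1 < δ x → c ∈ D x ∧ α < c := by
    intro x
    by_cases hx : α + 1 < δ x
    · obtain ⟨c, hc, hle⟩ := ((hcoh.1 _ (hD x).1).2.1 _ (hD x).2).cofinal hx
      exact ⟨c, fun _ => ⟨hc, (lt_add_one α).trans_le hle⟩⟩
    · exact ⟨0, fun h => absurd h hx⟩
  choose g hg using this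
  obtain ⟨γ0, hγ0, hst⟩ := J.stabilise hJ hreg hθ' X g
  refine ⟨γ0, hγ0, ?_⟩
  have hY : J.Null {x ∈ X | α + 1 < f x ∧ γ0 ≤ g x} := by
    by_contra hpos
    refine hmin _ g (fun x hx => hx.1) hpos (fun x hx => ?_) fun γ hγ =>
      J.mono (hst γ hγ) fun x hx => ⟨hx.1.1, hx.1.2.2, hx.2⟩
    rw [← hδ x hx.1]
    exact ((hcoh.1 _ (hD x).1).2.1 _ (hD x).2).1 (hg x (hδ x hx.1 ▸ hx.2.1)).1
  refine J.mono (J.union hθ0 hY (hf _ hα2)) ?_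
  rintro x ⟨hx1, hx2⟩
  by_cases h : α + 1 < f x
  · left
    refine ⟨hx2, h, ?_⟩
    by_contra hlt
    obtain ⟨h1, h2⟩ := hg x (hδ x hx2 ▸ h)
    exact hx1 ⟨g x, h1, h2, not_le.1 hlt⟩
  · exact Or.inr ⟨hx2, (not_lt.1 h).trans_lt (lt_add_one _)⟩

end Pool.Agent.MP_c650be_lc

end

-- part MP_c650be_lc.Main
section

/-!
The ideal on the tree of clubs and the main theorem.
-/

namespace Pool.Agent.MP_c650be_lc

open Cardinal Ordinal Set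

universe u

/-- The nodes of the tree of clubs of a sequence. -/
def Node (l : Ordinal.{u}) (𝒞 : Ordinal.{u} → Set (Set Ordinal.{u})) : Type (u + 1) :=
  {p : Ordinal.{u} × Set Ordinal.{u} // p.1 < l ∧ p.2 ∈ 𝒞 p.1}

variable {lam : Cardinal.{u}} {κ : Cardinal.{u}} {θ : Cardinal.{u + 1}}
  {𝒞 : Ordinal.{u} → Set (Set Ordinal.{u})}

/-- Sets of nodes closed under end-extension. -/
def IsOpn {l : Ordinal.{u}} (U : Set (Node l 𝒞)) : Prop :=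
  ∀ s ∈ U, ∀ t : Node l 𝒞, s.1.1 < t.1.1 → Ac t.1.2 s.1.1 → s.1.2 = t.1.2 ∩ Iio s.1.1 → t ∈ U

/-- The points of `S` whose level is missed by `U`. -/
def missed {l : Ordinal.{u}} (S : Set Ordinal.{u}) (U : Set (Node l 𝒞)) : Set Ordinal.{u} :=
  {β ∈ S | ∀ t ∈ U, t.1.1 ≠ β}

/-- The ideal generated by bounded sets and open sets missed on a stationary subset of `S`. -/
def treeIdl (hreg : lam.IsRegular) (hθ0 : ℵ₀ ≤ θ) (hθ : θ < Cardinal.lift.{u + 1} lam)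
    (𝒞 : Ordinal.{u} → Set (Set Ordinal.{u})) (S : Set Ordinal.{u}) :
    Idl (Node lam.ord 𝒞) θ where
  Null X := ∃ α < lam.ord, ∃ 𝒰 : Set (Set (Node lam.ord 𝒞)), #𝒰 ≤ θ ∧
    (∀ U ∈ 𝒰, IsOpn U ∧ StatIn (missed S U) lam.ord) ∧ ∀ t ∈ X, α ≤ t.1.1 → ∃ U ∈ 𝒰, t ∈ U
  mono := fun ⟨α, hα, 𝒰, h1, h2, h3⟩ hXY => ⟨α, hα, 𝒰, h1, h2, fun t ht => h3 t (hXY ht)⟩
  sUnion 𝒳 h1 h2 := by
    choose α hα 𝒰 h3 h4 h5 using fun X : 𝒳 => h2 X.1 X.2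
    obtain ⟨β, hβ, hb⟩ := bdd_of_lt hreg (s := range α) ((mk_range_le.trans h1).trans_lt hθ) (by
      rintro _ ⟨X, rfl⟩
      exact hα X)
    refine ⟨β, hβ, ⋃ X, 𝒰 X, ?_, ?_, ?_⟩
    · refine (mk_iUnion_le _).trans ?_
      exact (mul_le_mul' h1 (ciSup_le' h3)).trans (Cardinal.mul_eq_self hθ0).le
    · intro U hU
      obtain ⟨X, hX⟩ := mem_iUnion.1 hU
      exact h4 X U hX
    · rintro t ⟨X, hX, ht⟩ hβt
      obtain ⟨U, hU, htU⟩ := h5 ⟨X, hX⟩ t ht ((hb _ (mem_range_self _)).le.trans hβt)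
      exact ⟨U, mem_iUnion.2 ⟨_, hU⟩, htU⟩

/-- The least accumulation point at or above `α`. -/
noncomputable def hgt {l : Ordinal.{u}} (α : Ordinal.{u}) (t : Node l 𝒞) : Ordinal.{u} :=
  sInf {γ | α ≤ γ ∧ (γ = t.1.1 ∨ (γ < t.1.1 ∧ Ac t.1.2 γ))}

lemma hgt_spec {l α : Ordinal.{u}} {t : Node l 𝒞} (h : α ≤ t.1.1) :
    α ≤ hgt α t ∧ (hgt α t = t.1.1 ∨ (hgt α t < t.1.1 ∧ Ac t.1.2 (hgt α t))) :=
  csInf_mem (s := {γ | α ≤ γ ∧ (γ = t.1.1 ∨ (γ < t.1.1 ∧ Ac t.1.2 γ))}) ⟨t.1.1, h, Or.inl rfl⟩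

lemma hgt_le {l α : Ordinal.{u}} {t : Node l 𝒞} (h : α ≤ t.1.1) : hgt α t ≤ t.1.1 :=
  csInf_le' ⟨h, Or.inl rfl⟩

lemma hgt_eq {l α : Ordinal.{u}} {s t : Node l 𝒞} (h : α ≤ s.1.1) (h1 : s.1.1 < t.1.1)
    (h2 : Ac t.1.2 s.1.1) (h3 : s.1.2 = t.1.2 ∩ Iio s.1.1) : hgt α t = hgt α s := by
  apply le_antisymm
  · obtain ⟨h4, h5 | ⟨h5, h6⟩⟩ := hgt_spec h
    · exact csInf_le' ⟨h4, Or.inr ⟨h5 ▸ h1, h5 ▸ h2⟩⟩
    · exact csInf_le' ⟨h4, Or.inr ⟨h5.trans h1, h6.mono fun c hc _ => (h3 ▸ hc).1⟩⟩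
  · have h7 : hgt α t ≤ s.1.1 := csInf_le' ⟨h, Or.inr ⟨h1, h2⟩⟩
    obtain ⟨h4, h5 | ⟨-, h6⟩⟩ := hgt_spec (h.trans h1.le)
    · exact absurd (h5 ▸ h7) (not_le.2 h1)
    · rcases h7.eq_or_lt with h8 | h8
      · exact csInf_le' ⟨h4, Or.inl h8⟩
      · exact csInf_le' ⟨h4, Or.inr ⟨h8, h6.mono fun c hc hlt => h3 ▸ ⟨hc, hlt.trans h8⟩⟩⟩

theorem thread_of_refl (hκ0 : ℵ₀ < κ) (hκ : κ < lam) (hreg : lam.IsRegular)
    (hcoh : IsCoherent lam.ord κ 𝒞) {S : Set Ordinal.{u}} (hS : StatIn S lam.ord)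
    (hR : Refl lam.ord κ S) : ∃ D, IsThread lam.ord 𝒞 D := by
  classical
  have hunc : ℵ₀ < lam := hκ0.trans hκ
  have hcof := cof_ord_unc hreg hunc
  obtain ⟨θ1, hθ1, hS1⟩ := exists_width hreg hunc hκ (fun β => #(𝒞 β))
    (fun a ha => (hcoh.1 a ha).2.2) hS
  obtain ⟨θ2, hθ2, hS2⟩ := exists_width hreg hunc hκ (fun β => #(𝒞 β))
    (fun a ha => (hcoh.1 a ha).2.2) (statIn_omLim hcof)
  set θ : Cardinal.{u + 1} := max ℵ₀ (max θ1 θ2) with hθdef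
  have hθ0 : ℵ₀ ≤ θ := le_max_left _ _
  have hθκ : θ < Cardinal.lift.{u + 1} κ :=
    max_lt (Cardinal.aleph0_lt_lift.2 hκ0) (max_lt hθ1 hθ2)
  have hθs : Order.succ θ < Cardinal.lift.{u + 1} lam :=
    (Order.succ_le_of_lt hθκ).trans_lt (Cardinal.lift_lt.2 hκ)
  have hθ : θ < Cardinal.lift.{u + 1} lam := (Order.lt_succ θ).trans hθs
  have hS0 : StatIn {β | OmLim β ∧ #(𝒞 β) ≤ θ} lam.ord :=
    hS2.mono fun a ha _ => ⟨ha.1, ha.2.trans ((le_max_right _ _).trans (le_max_right _ _))⟩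
  let S' : Set Ordinal.{u} := {β ∈ S | #(𝒞 β) ≤ θ}
  have hS' : StatIn S' lam.ord :=
    hS1.mono fun a ha _ => ⟨ha.1, ha.2.trans ((le_max_left _ _).trans (le_max_right _ _))⟩
  let J := treeIdl hreg hθ0 hθ 𝒞 S'
  -- the ideal is proper
  have hproper : ¬ J.Null univ := by
    rintro ⟨α, hα, 𝒰, h1, h2, h3⟩
    obtain ⟨δ, hδ, hrefl⟩ := hR (insert (S' ∩ Ioi α) (missed S' '' 𝒰)) (by
      refine (mk_insert_le.trans (add_le_add_left (mk_image_le.trans h1) 1)).trans_lt ?_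
      rwa [Cardinal.add_one_eq hθ0]) (by
      rintro A (rfl | ⟨U, hU, rfl⟩)
      · exact ⟨fun a ha => ha.1.1, hS'.inter_Ioi hreg hunc hα⟩
      · exact ⟨fun a ha => ha.1.1, (h2 U hU).2⟩)
    obtain ⟨hδc, hst⟩ := hrefl _ (mem_insert _ _)
    have hδ0 : 0 < δ := (one_lt_cof_iff.1 (Cardinal.one_lt_aleph0.trans hδc)).pos
    obtain ⟨D, hD⟩ := (hcoh.1 δ hδ).1
    have hDc := (hcoh.1 δ hδ).2.1 D hD
    obtain ⟨β0, hβ1, hβ2⟩ := statIn_iff.1 hst _ (clubIn_acc hδc hDc hδ0)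
    obtain ⟨U, hU, hsU⟩ := h3 ⟨(β0, D ∩ Iio β0), hβ2.1.trans hδ,
      hcoh.restrict hδ hD hβ2.1 hβ2.2.2⟩ trivial (le_of_lt hβ1.2)
    obtain ⟨β, hβ3, hβ4⟩ := statIn_iff.1 (hrefl _ (mem_insert_of_mem _ ⟨U, hU, rfl⟩)).2 _
      (clubIn_acc hδc hDc hβ2.1)
    refine hβ3.2 ⟨(β, D ∩ Iio β), hβ4.1.trans hδ, hcoh.restrict hδ hD hβ4.1 hβ4.2.2⟩
      ((h2 U hU).1 _ hsU _ hβ4.2.1 ?_ ?_) rfl
    · exact hβ2.2.2.mono fun c hc hlt => ⟨hc, hlt.trans hβ4.2.1⟩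
    · change D ∩ Iio β0 = D ∩ Iio β ∩ Iio β0
      rw [inter_assoc, inter_eq_right.2 (Iio_subset_Iio hβ4.2.1.le)]
  have hbdd : ∀ α < lam.ord, J.Null {t | t.1.1 < α} := fun α hα =>
    ⟨α, hα, ∅, by simp, by simp, fun t ht h => absurd ht (not_lt.2 h)⟩
  -- saturation for open sets
  have hsat : ∀ {ι : Type (u + 1)} (s : Set ι) (U : ι → Set (Node lam.ord 𝒞)),
      (∀ i ∈ s, IsOpn (U i) ∧ ¬ J.Null (U i)) → s.PairwiseDisjoint U → #s ≤ θ := by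
    intro ι s U hU hdisj
    by_contra hlt
    obtain ⟨s', hs', hcard⟩ :=
      Cardinal.le_mk_iff_exists_subset.1 (Order.succ_le_of_lt (not_le.1 hlt))
    have hns : ∀ i ∈ s, ¬ StatIn (missed S' (U i)) lam.ord := fun i hi hst =>
      (hU i hi).2 ⟨0, hreg.ord_pos, {U i}, by simpa using Cardinal.one_le_aleph0.trans hθ0,
        by simpa using ⟨(hU i hi).1, hst⟩, fun t ht _ => ⟨U i, rfl, ht⟩⟩
    have : ∃ β ∈ S', ∀ i : s', β ∉ missed S' (U i) := by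
      by_contra hcon
      push Not at hcon
      obtain ⟨i, hi⟩ := exists_stat_of_iUnion hreg hunc (ι := s') (hcard.trans_lt hθs) hS'
        (fun i => missed S' (U i)) (fun a ha _ => hcon a ha)
      exact hns i (hs' i.2) hi
    obtain ⟨β, hβ, hβ'⟩ := this
    have h1 : ∀ i : s', ∃ t ∈ U i, t.1.1 = β := by
      intro i
      by_contra hcon
      push Not at hcon
      exact hβ' i ⟨hβ, hcon⟩
    choose t ht1 ht2 using h1
    have hinj : Function.Injective fun i => (⟨(t i).1.2, ht2 i ▸ (t i).2.2⟩ : 𝒞 β) := by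
      intro i j hij
      have h2 : t i = t j :=
        Subtype.ext (Prod.ext ((ht2 i).trans (ht2 j).symm) (congrArg Subtype.val hij))
      by_contra hne
      exact disjoint_left.1 (hdisj (hs' i.2) (hs' j.2) fun h => hne (Subtype.ext h)) (ht1 i)
        (h2 ▸ ht1 j)
    have := (mk_le_of_injective hinj).trans hβ.2
    rw [hcard] at this
    exact absurd this (not_le.2 (Order.lt_succ θ))
  -- the image ideals
  let Jα : Ordinal.{u} → Idl Ordinal.{u} θ := fun α =>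
    (J.restrict {t | α ≤ t.1.1}).map (hgt α)
  have hJsat : ∀ α, (Jα α).Saturated := by
    intro α 𝒴 hdisj hpos
    refine hsat 𝒴 (fun Y => hgt α ⁻¹' Y ∩ {t | α ≤ t.1.1}) (fun Y hY => ⟨?_, hpos Y hY⟩) ?_
    · rintro s ⟨hs1, hs2⟩ t h1 h2 h3
      refine ⟨?_, le_trans hs2 h1.le⟩
      rw [mem_preimage, hgt_eq hs2 h1 h2 h3]
      exact hs1
    · intro Y hY Y' hY' hne
      exact ((hdisj hY hY' hne).preimage (hgt α)).mono inter_subset_left inter_subset_left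
  have hstab := fun α => (Jα α).stabilise (hJsat α) hreg hθ univ id
  choose γ hγ1 hγ2 using hstab
  by_cases hcase : ∃ α, ¬ (Jα α).Null {ξ | γ α ≤ ξ ∧ ξ < lam.ord}
  · obtain ⟨α, hα⟩ := hcase
    exact thread_of_unbounded hreg hunc hcoh hθ0 hθs hS0 (Jα α) (hJsat α) (f0 := id) hα
      (fun ε hε => (Jα α).mono (hγ2 α ε hε) fun x hx => ⟨trivial, hx.1.1, hx.2⟩)
      (fun x hx => hx.2)
  · push Not at hcase
    refine thread_of_ideal hreg hunc hcoh hθ0 hθs hS0 J hproper (fun t => t.1.1) (fun t => t.1.2)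
      (fun t => t.2) fun α hα => ⟨γ (α + 1), hγ1 _, ?_⟩
    have hm : max (α + 1) (γ (α + 1)) < lam.ord := max_lt (lt_of_cof hcof hα) (hγ1 _)
    refine J.mono (J.union hθ0 (hcase (α + 1)) (hbdd _ hm)) fun t ht => ?_
    by_cases h1 : t.1.1 < max (α + 1) (γ (α + 1))
    · exact Or.inr h1
    · left
      rw [not_lt, max_le_iff] at h1
      refine ⟨⟨?_, (hgt_le h1.1).trans_lt t.2.1⟩, h1.1⟩
      by_contra hlt
      rw [not_le] at hlt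
      obtain ⟨h2, h3 | ⟨h3, h4⟩⟩ := hgt_spec h1.1
      · exact absurd (h3 ▸ hlt) (not_lt.2 h1.2)
      · exact ht ⟨_, ((hcoh.1 _ t.2.1).2.1 _ t.2.2).closed h3 h4,
          (lt_add_one α).trans_le h2, hlt⟩

end Pool.Agent.MP_c650be_lc

end
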